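import Mathlib

namespace Pool.Agent.Results.MP_a57927_nt.SqrtBound

/-- The map `f(n) = φ(n) + 1`. -/
def f (n : ℕ) : ℕ := Nat.totient n + 1

/-- `c(n)`: the least `i` such that the `i`-th iterate of `f` at `n` is prime. -/
noncomputable def c (n : ℕ) : ℕ := sInf {i : ℕ | Nat.Prime (f^[i] n)}

/-- Coprime splitting into odd factors: the two factors have sum at least `2 m + 2`. -/
lemma sum_ge {u v m : ℕ} (hu : Odd u) (hv : Odd v) (huv : u ≠ v) (hm : m * m ≤ u * v) :
    2 * m + 2 ≤ u + v := by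
  have h1 : 2 * m < u + v := by
    by_contra h
    push Not at h
    rcases Nat.lt_or_gt_of_ne huv with h' | h'
    · nlinarith [Nat.mul_le_mul h h, mul_self_nonneg ((v:ℤ) - u)]
    · nlinarith [Nat.mul_le_mul h h]
  obtain ⟨x, hx⟩ := hu
  obtain ⟨y, hy⟩ := hv
  omega

lemma totient_lt_of_one_lt {u : ℕ} (hu : 1 < u) : Nat.totient u ≤ u - 1 := by
  have := Nat.totient_lt u hu
  omega

/-- Key estimate: for odd composite `a` different from `27` and not the square of a prime,
`φ(a) + 1 ≤ a - 2 m` whenever `m² ≤ a`. -/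
lemma step {a m : ℕ} (hodd : Odd a) (h1 : 1 < a) (hnp : ¬ a.Prime) (h27 : a ≠ 27)
    (hsq : ∀ p : ℕ, p.Prime → a ≠ p ^ 2) (hm : m * m ≤ a) : f a + 2 * m ≤ a := by
  have hp : (a.minFac).Prime := Nat.minFac_prime (by omega)
  set p := a.minFac with hpdef
  have hpa : p ∣ a := Nat.minFac_dvd a
  have hpodd : Odd p := Odd.of_dvd_nat hodd hpa
  have hp3 : 3 ≤ p := by
    have := hp.two_le
    obtain ⟨x, hx⟩ := hpodd
    omega
  obtain ⟨k, b, hb, hab⟩ := Nat.exists_eq_pow_mul_and_not_dvd (n := a) (by omega) p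
    (by have := hp.two_le; omega)
  have hk : k ≠ 0 := by
    rintro rfl
    apply hb
    rw [pow_zero, one_mul] at hab
    rw [← hab]
    exact hpa
  by_cases hb1 : b = 1
  · -- prime power
    subst hb1
    rw [mul_one] at hab
    have hk1 : k ≠ 1 := by
      rintro rfl
      apply hnp
      rw [hab, pow_one]
      exact hp
    have hk2 : k ≠ 2 := by
      rintro rfl
      exact hsq p hp hab
    obtain ⟨j, rfl⟩ : ∃ j, k = j + 3 := ⟨k - 3, by omega⟩
    have htot : Nat.totient a = p ^ (j + 2) * (p - 1) := by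
      rw [hab, Nat.totient_prime_pow hp (by omega)]
      rfl
    have hx : 4 * p + 2 ≤ p ^ (j + 2) := by
      rcases Nat.lt_or_ge p 5 with hp5 | hp5
      · have hp3' : p = 3 := by
          obtain ⟨x, hx⟩ := hpodd
          omega
        have hj : j ≠ 0 := by
          rintro rfl
          apply h27
          rw [hab, hp3']
          norm_num
        have : 3 ^ 3 ≤ 3 ^ (j + 2) := Nat.pow_le_pow_right (by norm_num) (by omega)
        rw [hp3']
        norm_num at this ⊢
        omega
      · have : p ^ 2 ≤ p ^ (j + 2) := Nat.pow_le_pow_right (by omega) (by omega)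
        nlinarith
    have haX : a = p * p ^ (j + 2) := by
      rw [hab]; ring
    have htot2 : Nat.totient a + p ^ (j + 2) = a := by
      rw [htot, haX]
      obtain ⟨q, hq⟩ : ∃ q, p = q + 1 := ⟨p - 1, by omega⟩
      rw [hq]
      simp only [Nat.add_sub_cancel]
      ring
    set X := p ^ (j + 2) with hX
    have hm2 : 2 * m + 1 ≤ X := by
      by_contra hcon
      push Not at hcon
      have h4 : X ≤ 2 * m := by omega
      have h5 : X * X ≤ 4 * (m * m) := by nlinarith
      have h6 : 4 * (m * m) ≤ 4 * (p * X) := by rw [← haX]; omega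
      have h7 : (4 * p + 2) * X ≤ X * X := Nat.mul_le_mul_right X hx
      have h8 : 0 < X := by omega
      nlinarith
    unfold f
    omega
  · -- coprime splitting
    have hb0 : b ≠ 0 := by
      rintro rfl
      rw [mul_zero] at hab
      omega
    have hbodd : Odd b := Odd.of_dvd_nat hodd ⟨p ^ k, by rw [hab, mul_comm]⟩
    have hpk : Odd (p ^ k) := hpodd.pow
    have hcop : Nat.Coprime (p ^ k) b := Nat.Coprime.pow_left k ((Nat.Prime.coprime_iff_not_dvd hp).2 hb)
    have hu1 : 1 < p ^ k := Nat.one_lt_pow hk hp.one_lt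
    have hne : p ^ k ≠ b := by
      intro h
      apply hb
      rw [← h]
      exact dvd_pow_self p hk
    have hs := sum_ge hpk hbodd hne (hab ▸ hm)
    have hphi : Nat.totient a = Nat.totient (p ^ k) * Nat.totient b := by
      rw [hab, Nat.totient_mul hcop]
    have h2 := totient_lt_of_one_lt hu1
    have h3 := totient_lt_of_one_lt (show 1 < b by omega)
    have h4 : Nat.totient a ≤ (p ^ k - 1) * (b - 1) := by
      rw [hphi]; exact Nat.mul_le_mul h2 h3
    obtain ⟨u, hu⟩ : ∃ u, p ^ k = u + 1 := ⟨p ^ k - 1, by omega⟩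
    obtain ⟨v, hv⟩ : ∃ v, b = v + 1 := ⟨b - 1, by omega⟩
    rw [hu, hv] at hs h4
    simp only [Nat.add_sub_cancel] at h4
    have h5 : a = u * v + u + v + 1 := by
      rw [hab, hu, hv]; ring
    unfold f
    omega

lemma f_odd {n : ℕ} (hn : 3 ≤ n) : Odd (f n) ∧ 3 ≤ f n := by
  have h := Nat.totient_even (n := n) (by omega)
  have h0 : 0 < Nat.totient n := Nat.totient_pos.2 (by omega)
  obtain ⟨x, hx⟩ := h
  unfold f
  refine ⟨⟨x, by omega⟩, by omega⟩

/-- Lower half of a level: an odd `a` with `3 ≤ a ≤ m² + m + 1` reaches a prime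
after at most `m - 1` steps. -/
lemma lower : ∀ m a : ℕ, Odd a → 3 ≤ a → a ≤ m * m + m + 1 →
    ∃ i, i + 1 ≤ m ∧ Nat.Prime (f^[i] a) := by
  intro m
  induction m with
  | zero => intro a _ h3 h; omega
  | succ m ih =>
    intro a hodd h3 hle
    by_cases hp : a.Prime
    · exact ⟨0, by omega, by simpa using hp⟩
    -- it is enough that `f a ≤ m² + m + 1`
    have key : f a ≤ m * m + m + 1 → ∃ i, i + 1 ≤ m + 1 ∧ Nat.Prime (f^[i] a) := by
      intro h
      obtain ⟨ho, h3'⟩ := f_odd h3
      obtain ⟨i, hi, hpi⟩ := ih (f a) ho h3' h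
      exact ⟨i + 1, by omega, by simpa [Function.iterate_succ_apply] using hpi⟩
    by_cases h27 : a = 27
    · subst h27
      have h19 : f 27 = 19 := by unfold f; decide +kernel
      refine ⟨1, ?_, ?_⟩
      · by_contra hcon
        have : m = 0 := by omega
        subst this
        omega
      · simp only [Function.iterate_one, h19]
        norm_num
    by_cases hsq : ∀ p : ℕ, p.Prime → a ≠ p ^ 2
    · apply key
      rcases Nat.lt_or_ge a ((m + 1) * (m + 1)) with hlt | hge
      · have hm' : (Nat.sqrt a) * (Nat.sqrt a) ≤ a := Nat.sqrt_le a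
        have hs := step hodd (by omega) hp h27 hsq hm'
        have hs1 : Nat.sqrt a ≤ m := by
          have : Nat.sqrt a < m + 1 := Nat.sqrt_lt.2 hlt
          omega
        have hs2 : a < (Nat.sqrt a + 1) * (Nat.sqrt a + 1) := Nat.lt_succ_sqrt a
        nlinarith
      · have hs := step hodd (by omega) hp h27 hsq hge
        nlinarith
    · push Not at hsq
      obtain ⟨p, hpp, rfl⟩ := hsq
      apply key
      have htot : Nat.totient (p ^ 2) = p * (p - 1) := by
        rw [Nat.totient_prime_pow hpp (by norm_num)]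
        simp
      have hpm : p ≤ m + 1 := by
        by_contra hcon
        push Not at hcon
        nlinarith
      obtain ⟨q, rfl⟩ : ∃ q, p = q + 1 := ⟨p - 1, by have := hpp.two_le; omega⟩
      unfold f
      rw [htot]
      simp only [Nat.add_sub_cancel]
      have : q ≤ m := by omega
      nlinarith

/-- For even `n` one has `2 φ(n) ≤ n`. -/
lemma two_mul_totient_le {n : ℕ} (hn : Even n) (h0 : n ≠ 0) : 2 * Nat.totient n ≤ n := by
  obtain ⟨k, b, hb, hab⟩ := Nat.exists_eq_pow_mul_and_not_dvd (n := n) h0 2 (by norm_num)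
  have hk : k ≠ 0 := by
    rintro rfl
    apply hb
    rw [pow_zero, one_mul] at hab
    rw [← hab]
    exact hn.two_dvd
  obtain ⟨j, rfl⟩ : ∃ j, k = j + 1 := ⟨k - 1, by omega⟩
  have hcop : Nat.Coprime (2 ^ (j + 1)) b :=
    Nat.Coprime.pow_left _ ((Nat.Prime.coprime_iff_not_dvd Nat.prime_two).2 hb)
  rw [hab, Nat.totient_mul hcop, Nat.totient_prime_pow Nat.prime_two (by omega)]
  simp only [Nat.add_sub_cancel]
  have h1 : Nat.totient b ≤ b := Nat.totient_le b
  have h2 : 2 ^ j * Nat.totient b ≤ 2 ^ j * b := Nat.mul_le_mul_left _ h1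
  calc 2 * (2 ^ j * (2 - 1) * Nat.totient b) = 2 * (2 ^ j * Nat.totient b) := by norm_num
    _ ≤ 2 * (2 ^ j * b) := Nat.mul_le_mul_left _ h2
    _ = 2 ^ (j + 1) * b := by ring

/-- One step from a composite number lands in the lower half of its level. -/
lemma f_le {n : ℕ} (hn : 1 < n) (hp : ¬ n.Prime) :
    f n ≤ Nat.sqrt n * Nat.sqrt n + Nat.sqrt n + 1 := by
  have hlt : n < (Nat.sqrt n + 1) * (Nat.sqrt n + 1) := Nat.lt_succ_sqrt n
  have hge : Nat.sqrt n * Nat.sqrt n ≤ n := Nat.sqrt_le n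
  rcases Nat.even_or_odd n with he | ho
  · have h := two_mul_totient_le he (by omega)
    unfold f
    nlinarith
  by_cases h27 : n = 27
  · subst h27
    have h19 : f 27 = 19 := by unfold f; decide +kernel
    have h5 : Nat.sqrt 27 = 5 := by decide +kernel
    rw [h19, h5]
    norm_num
  by_cases hsq : ∀ p : ℕ, p.Prime → n ≠ p ^ 2
  · have := step ho hn hp h27 hsq hge
    nlinarith
  · push Not at hsq
    obtain ⟨p, hpp, rfl⟩ := hsq
    have htot : Nat.totient (p ^ 2) = p * (p - 1) := by
      rw [Nat.totient_prime_pow hpp (by norm_num)]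
      simp
    rw [Nat.sqrt_eq' p]
    unfold f
    rw [htot]
    obtain ⟨q, rfl⟩ : ∃ q, p = q + 1 := ⟨p - 1, by have := hpp.two_le; omega⟩
    simp only [Nat.add_sub_cancel]
    nlinarith

theorem main (n : ℕ) (hn : 1 ≤ n) : ∃ i, i ≤ Nat.sqrt n ∧ Nat.Prime (f^[i] n) := by
  rcases Nat.lt_or_ge n 3 with h3 | h3
  · interval_cases n
    · refine ⟨1, by decide +kernel, ?_⟩
      have : f 1 = 2 := by unfold f; decide +kernel
      simp only [Function.iterate_one, this]
      exact Nat.prime_two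
    · exact ⟨0, by omega, by simpa using Nat.prime_two⟩
  by_cases hp : n.Prime
  · exact ⟨0, by omega, by simpa using hp⟩
  obtain ⟨ho, h3'⟩ := f_odd h3
  obtain ⟨i, hi, hpi⟩ := lower (Nat.sqrt n) (f n) ho h3' (f_le (by omega) hp)
  exact ⟨i + 1, hi, by simpa [Function.iterate_succ_apply] using hpi⟩

/-- For every `n ≥ 1` the iteration of `f(n) = φ(n) + 1` from `n` reaches a prime, and the least
number `c(n)` of steps needed satisfies `c(n) ≤ √n`. -/
theorem result : ∀ n : ℕ, 1 ≤ n → Nat.Prime (f^[c n] n) ∧ (c n : ℝ) ≤ Real.sqrt n := by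
  intro n hn
  obtain ⟨i, hi, hpi⟩ := main n hn
  refine ⟨Nat.sInf_mem (s := {i : ℕ | Nat.Prime (f^[i] n)}) ⟨i, hpi⟩, ?_⟩
  have h1 : c n ≤ Nat.sqrt n := (Nat.sInf_le (s := {i : ℕ | Nat.Prime (f^[i] n)}) hpi).trans hi
  calc (c n : ℝ) ≤ (Nat.sqrt n : ℝ) := by exact_mod_cast h1
    _ ≤ Real.sqrt n := Real.nat_sqrt_le_real_sqrt

end Pool.Agent.Results.MP_a57927_nt.SqrtBound
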